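import Pool.Agent.W595.SingBridge
import Pool.Agent.Helper775.Surf.Fin

/-! Mathlib's tightness implies tightness in terms of explicit chains. -/

set_option autoImplicit false

namespace Pool.Agent.W595.Bridge

open CategoryTheory AlgebraicTopology Set
open Pool.Agent.Helper775.Tight Pool.Agent.Helper775.Surf
open scoped InnerProductSpace Topology

/-- the mod 2 weight of a 0-chain in a set -/
noncomputable def wt {A : Type} [TopologicalSpace A] (U : Set A) :
    (Sing A 0 →₀ ZMod 2) →ₗ[ZMod 2] ZMod 2 := by
  classical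
  exact Finsupp.linearCombination (ZMod 2)
    (fun σ : Sing A 0 => if σ default ∈ U then (1 : ZMod 2) else 0)

theorem wt_bdry {A : Type} [TopologicalSpace A] {U : Set A} (hU : IsClopen U)
    (c : Sing A 1 →₀ ZMod 2) : wt U (bdry A 0 c) = 0 := by
  classical
  have h : wt U ∘ₗ bdry A 0 = 0 := by
    refine Finsupp.lhom_ext' fun σ => LinearMap.ext_ring ?_
    simp only [LinearMap.comp_apply, Finsupp.lsingle_apply, LinearMap.zero_apply]
    rw [bdry, Finsupp.linearCombination_single, one_smul, map_sum, wt]
    simp only [Finsupp.linearCombination_single, one_smul]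
    have hc : ∀ x y : stdSimplex ℝ (Fin 2), σ x ∈ U → σ y ∈ U := by
      intro x y hx
      have hcl : IsClopen (σ ⁻¹' U) := hU.preimage σ.continuous
      have hpc : PreconnectedSpace (stdSimplex ℝ (Fin 2)) :=
        Subtype.preconnectedSpace (convex_stdSimplex ℝ (Fin 2)).isPreconnected
      rcases isClopen_iff.1 hcl with h | h
      · have : x ∈ σ ⁻¹' U := hx
        rw [h] at this
        exact absurd this (notMem_empty _)
      · have : y ∈ σ ⁻¹' U := by rw [h]; exact mem_univ _
        exact this
    rw [Fin.sum_univ_two]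
    by_cases h0 : (sface 0 0 σ) default ∈ U
    · have h1 : (sface 0 1 σ) default ∈ U := hc _ _ h0
      rw [if_pos h0, if_pos h1]
      decide
    · have h1 : (sface 0 1 σ) default ∉ U := fun h => h0 (hc _ _ h)
      rw [if_neg h0, if_neg h1]
      decide
  exact LinearMap.congr_fun h c

/-- the edge of a path -/
noncomputable def edge {X : Type} [TopologicalSpace X] {a b : X} (γ : Path a b) : Sing X 1 :=
  ⟨fun x => γ.extend (x.1 1), γ.continuous_extend.comp
    ((continuous_apply (1 : Fin 2)).comp continuous_subtype_val)⟩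

theorem edge_bdry {X : Type} [TopologicalSpace X] {a b : X} (γ : Path a b) :
    bdry X 0 (Finsupp.single (edge γ) 1) =
      Finsupp.single (ContinuousMap.const _ b) 1 + Finsupp.single (ContinuousMap.const _ a) 1 := by
  rw [bdry, Finsupp.linearCombination_single, one_smul, Fin.sum_univ_two]
  have hv : ∀ x : stdSimplex ℝ (Fin 1), x = stdSimplex.vertex 0 := fun x => Subsingleton.elim _ _
  have e0 : sface 0 0 (edge γ) = ContinuousMap.const _ b := by
    refine ContinuousMap.ext fun x => ?_
    rw [hv x]
    have h1 : stdSimplex.map (Fin.succAbove (0 : Fin 2)) (stdSimplex.vertex (S := ℝ) (0 : Fin 1)) =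
        stdSimplex.vertex (1 : Fin 2) := stdSimplex.map_vertex _ _
    show γ.extend ((stdSimplex.map (Fin.succAbove (0 : Fin 2))
      (stdSimplex.vertex (S := ℝ) (0 : Fin 1))).1 1) = b
    rw [h1]
    show γ.extend ((Pi.single (1 : Fin 2) (1 : ℝ) : Fin 2 → ℝ) 1) = b
    rw [Pi.single_eq_same, Path.extend_one]
  have e1 : sface 0 1 (edge γ) = ContinuousMap.const _ a := by
    refine ContinuousMap.ext fun x => ?_
    rw [hv x]
    have h1 : stdSimplex.map (Fin.succAbove (1 : Fin 2)) (stdSimplex.vertex (S := ℝ) (0 : Fin 1)) =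
        stdSimplex.vertex (0 : Fin 2) := stdSimplex.map_vertex _ _
    show γ.extend ((stdSimplex.map (Fin.succAbove (1 : Fin 2))
      (stdSimplex.vertex (S := ℝ) (0 : Fin 1))).1 1) = a
    rw [h1]
    show γ.extend ((Pi.single (0 : Fin 2) (1 : ℝ) : Fin 2 → ℝ) 1) = a
    rw [Pi.single_eq_of_ne (by decide), Path.extend_zero]
  rw [e0, e1]

/-- injectivity on `H_0` gives connectedness -/
theorem preconnected_of_mono {X : Type} [TopologicalSpace X] [PathConnectedSpace X] (A : Set X)
    (h : Mono (((singularHomologyFunctor (ModuleCat.{0} (ZMod 2)) 0).obj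
      (ModuleCat.of (ZMod 2) (ZMod 2))).map
        (TopCat.ofHom (⟨Subtype.val, continuous_subtype_val⟩ : C(A, X))))) :
    IsPreconnected A := by
  classical
  rw [isPreconnected_iff_preconnectedSpace, preconnectedSpace_iff_clopen]
  intro U hU
  by_contra hcon
  push Not at hcon
  obtain ⟨h1, h2⟩ := hcon
  obtain ⟨a, ha⟩ := h1
  obtain ⟨b, hb⟩ := (ne_univ_iff_exists_notMem U).1 h2
  set i : C(A, X) := ⟨Subtype.val, continuous_subtype_val⟩ with hi
  obtain ⟨γ⟩ := PathConnectedSpace.joined (i a) (i b)
  set u : Sing A 0 →₀ ZMod 2 :=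
    Finsupp.single (ContinuousMap.const _ b) 1 + Finsupp.single (ContinuousMap.const _ a) 1 with hu
  obtain ⟨c, hc⟩ := mono_bridge i 0 h u trivial ⟨Finsupp.single (edge γ) 1, by
    rw [edge_bdry, hu, map_add, push, Finsupp.lmapDomain_apply, Finsupp.lmapDomain_apply,
      Finsupp.mapDomain_single, Finsupp.mapDomain_single]
    rfl⟩
  have h3 := wt_bdry hU c
  rw [hc, hu, map_add, wt, Finsupp.linearCombination_single, Finsupp.linearCombination_single,
    one_smul, one_smul] at h3
  rw [if_neg (show ¬ (ContinuousMap.const _ b) default ∈ U from hb),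
    if_pos (show (ContinuousMap.const _ a) default ∈ U from ha)] at h3
  exact absurd h3 (by decide)

/-- the chain of the subspace underlying a chain in the subset -/
theorem exists_lift {X : Type} [TopologicalSpace X] (A : Set X) {n : ℕ}
    (c : Sing X n →₀ ZMod 2) (hc : ChainIn A c) :
    ∃ c' : Sing A n →₀ ZMod 2,
      push (⟨Subtype.val, continuous_subtype_val⟩ : C(A, X)) n c' = c := by
  classical
  set i : C(A, X) := ⟨Subtype.val, continuous_subtype_val⟩ with hi
  have h1 : c ∈ LinearMap.range (push i n) := by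
    rw [← c.sum_single]
    refine Submodule.sum_mem _ fun σ hσ => ?_
    refine ⟨Finsupp.single (⟨fun x => ⟨σ x, hc σ hσ ⟨x, rfl⟩⟩,
      σ.continuous.subtype_mk _⟩ : Sing A n) (c σ), ?_⟩
    rw [push, Finsupp.lmapDomain_apply, Finsupp.mapDomain_single]
    rfl
  exact h1

theorem push_chainIn {X : Type} [TopologicalSpace X] (A : Set X) {n : ℕ}
    (c : Sing A n →₀ ZMod 2) :
    ChainIn A (push (⟨Subtype.val, continuous_subtype_val⟩ : C(A, X)) n c) := by
  classical
  intro σ hσ
  have h1 := Finsupp.mapDomain_support hσ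
  rw [Finset.mem_image] at h1
  obtain ⟨τ, -, rfl⟩ := h1
  rintro _ ⟨x, rfl⟩
  exact (τ x).2

theorem push_injective {X : Type} [TopologicalSpace X] (A : Set X) (n : ℕ) :
    Function.Injective (push (⟨Subtype.val, continuous_subtype_val⟩ : C(A, X)) n) := by
  refine Finsupp.mapDomain_injective ?_
  intro σ τ h
  refine ContinuousMap.ext fun x => Subtype.ext ?_
  exact congrArg (fun g : Sing X n => g x) h

/-- injectivity on `H_n` in terms of chains of the big space -/
theorem inj_of_mono {X : Type} [TopologicalSpace X] (A : Set X) (n : ℕ)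
    (h : Mono (((singularHomologyFunctor (ModuleCat.{0} (ZMod 2)) n).obj
      (ModuleCat.of (ZMod 2) (ZMod 2))).map
        (TopCat.ofHom (⟨Subtype.val, continuous_subtype_val⟩ : C(A, X)))))
    (u : Sing X n →₀ ZMod 2) (hu : ChainIn A u) (hc : IsCycle n u)
    (hb : ∃ b, bdry X n b = u) : ∃ b, ChainIn A b ∧ bdry X n b = u := by
  obtain ⟨u', rfl⟩ := exists_lift A u hu
  have hc' : IsCycle n u' := by
    cases n with
    | zero => trivial
    | succ m =>
      have h1 : bdry X m (push _ (m + 1) u') = 0 := hc
      rw [← push_bdry] at h1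
      exact push_injective A m (h1.trans (map_zero _).symm)
  obtain ⟨b, hb'⟩ := mono_bridge _ n h u' hc' hb
  refine ⟨push _ (n + 1) b, push_chainIn A b, ?_⟩
  rw [← push_bdry, hb']

end Pool.Agent.W595.Bridge
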