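import Pool.Agent.Helper775.Tight.SingDefs

/-! Comparison of the explicit singular chains mod 2 with Mathlib's singular homology. -/

set_option autoImplicit false

namespace Pool.Agent.W595.Bridge

open CategoryTheory AlgebraicTopology Simplicial Opposite Limits
open Pool.Agent.Helper775.Tight

noncomputable section

/-- coefficients -/
abbrev FF : ModuleCat.{0} (ZMod 2) := ModuleCat.of (ZMod 2) (ZMod 2)

/-- the singular set of a space -/
abbrev SS (X : Type) [TopologicalSpace X] : SSet.{0} := TopCat.toSSet.obj (TopCat.of X)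

/-- the singular chain complex -/
abbrev KK (X : Type) [TopologicalSpace X] : ChainComplex (ModuleCat.{0} (ZMod 2)) ℕ :=
  (SS X).chainComplex FF

/-- simplices of the singular set -/
def eqv (X : Type) [TopologicalSpace X] (n : ℕ) : Sing X n ≃ (SS X) _⦋n⦌ :=
  ((TopCat.of X).toSSetObjEquiv (op ⦋n⦌)).symm

/-- basis elements of the chain complex -/
def bas {X : Type} [TopologicalSpace X] {n : ℕ} (σ : Sing X n) : (KK X).X n :=
  ((SS X).ιChainComplex (R := FF) (eqv X n σ)).hom (1 : ZMod 2)

/-- from explicit chains to Mathlib chains -/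
def toC (X : Type) [TopologicalSpace X] (n : ℕ) : (Sing X n →₀ ZMod 2) →ₗ[ZMod 2] (KK X).X n :=
  Finsupp.linearCombination (ZMod 2) bas

/-- from Mathlib chains to explicit chains -/
def ofC (X : Type) [TopologicalSpace X] (n : ℕ) :
    (KK X).X n ⟶ ModuleCat.of (ZMod 2) (Sing X n →₀ ZMod 2) :=
  Sigma.desc (fun x => ModuleCat.ofHom (Finsupp.lsingle ((eqv X n).symm x)))

theorem ofC_toC {X : Type} [TopologicalSpace X] {n : ℕ} (c : Sing X n →₀ ZMod 2) :
    (ofC X n).hom (toC X n c) = c := by
  have h : (ofC X n).hom ∘ₗ (toC X n) = LinearMap.id := by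
    refine Finsupp.lhom_ext' fun σ => LinearMap.ext_ring ?_
    simp only [LinearMap.comp_apply, Finsupp.lsingle_apply, LinearMap.id_apply]
    rw [toC, Finsupp.linearCombination_single, one_smul, bas, ← ModuleCat.comp_apply]
    have h2 : (SS X).ιChainComplex (R := FF) (eqv X n σ) ≫ ofC X n =
        ModuleCat.ofHom (Finsupp.lsingle ((eqv X n).symm (eqv X n σ))) := by
      exact Sigma.ι_desc _ _
    rw [h2, Equiv.symm_apply_apply]
    rfl
  exact LinearMap.congr_fun h c

theorem toC_injective {X : Type} [TopologicalSpace X] {n : ℕ} :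
    Function.Injective (toC X n) :=
  Function.LeftInverse.injective ofC_toC

theorem toC_ofC {X : Type} [TopologicalSpace X] {n : ℕ} (y : (KK X).X n) :
    toC X n ((ofC X n).hom y) = y := by
  have h : ofC X n ≫ ModuleCat.ofHom (toC X n) = 𝟙 _ := by
    refine SSet.chainComplex_hom_ext ?_
    intro x
    have h2 : (SS X).ιChainComplex (R := FF) x ≫ ofC X n =
        ModuleCat.ofHom (Finsupp.lsingle ((eqv X n).symm x)) := Sigma.ι_desc _ _
    rw [← Category.assoc, h2, Category.comp_id]
    apply ModuleCat.hom_ext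
    refine LinearMap.ext_ring ?_
    show toC X n (Finsupp.lsingle ((eqv X n).symm x) (1 : ZMod 2)) = _
    rw [Finsupp.lsingle_apply, toC, Finsupp.linearCombination_single, one_smul, bas,
      Equiv.apply_symm_apply]
  exact ConcreteCategory.congr_hom h y

/-- the equivalence is compatible with faces -/
theorem eqv_face {X : Type} [TopologicalSpace X] {n : ℕ} (i : Fin (n + 2)) (σ : Sing X (n + 1)) :
    (SS X).δ i (eqv X (n + 1) σ) = eqv X n (sface n i σ) := by
  exact TopCat.toSSetObjEquiv_symm_naturality (X := TopCat.of X) (SimplexCategory.δ i) σ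

theorem d_toC {X : Type} [TopologicalSpace X] {n : ℕ} (c : Sing X (n + 1) →₀ ZMod 2) :
    ((KK X).d (n + 1) n).hom (toC X (n + 1) c) = toC X n (bdry X n c) := by
  have h : ((KK X).d (n + 1) n).hom ∘ₗ toC X (n + 1) = toC X n ∘ₗ bdry X n := by
    refine Finsupp.lhom_ext' fun σ => LinearMap.ext_ring ?_
    simp only [LinearMap.comp_apply, Finsupp.lsingle_apply]
    rw [toC, Finsupp.linearCombination_single, one_smul, bas, bdry,
      Finsupp.linearCombination_single, one_smul, map_sum, ← ModuleCat.comp_apply,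
      SSet.ιChainComplex_d]
    have hs : ∀ i : Fin (n + 2), toC X n (Finsupp.single (sface n i σ) (1 : ZMod 2)) =
        ((SS X).ιChainComplex (R := FF) ((SS X).δ i (eqv X (n + 1) σ))).hom (1 : ZMod 2) := by
      intro i
      rw [eqv_face, toC, Finsupp.linearCombination_single, one_smul]
      rfl
    rw [Finset.sum_congr rfl fun i _ => hs i]
    have h2 : ∀ i : Fin (n + 2), ((-1 : ℤ) ^ i.val • (SS X).ιChainComplex (R := FF)
        ((SS X).δ i (eqv X (n + 1) σ)) : FF ⟶ _) = (SS X).ιChainComplex (R := FF)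
        ((SS X).δ i (eqv X (n + 1) σ)) := by
      intro i
      rcases neg_one_pow_eq_or ℤ i.val with h | h
      · rw [h, one_smul]
      · rw [h, neg_smul, one_smul]
        apply ModuleCat.hom_ext
        refine LinearMap.ext_ring ?_
        rw [ModuleCat.hom_neg, LinearMap.neg_apply]
        exact ZModModule.neg_eq_self _
    rw [Finset.sum_congr rfl fun i _ => h2 i]
    change (ModuleCat.Hom.hom (∑ i : Fin (n + 2), (SS X).ιChainComplex (R := FF)
        ((SS X).δ i (eqv X (n + 1) σ)) : FF ⟶ (KK X).X n)) (1 : ZMod 2) = _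
    rw [ModuleCat.hom_sum, LinearMap.sum_apply]
  exact LinearMap.congr_fun h c

/-- push forward of singular chains -/
def push {A X : Type} [TopologicalSpace A] [TopologicalSpace X] (f : C(A, X)) (n : ℕ) :
    (Sing A n →₀ ZMod 2) →ₗ[ZMod 2] (Sing X n →₀ ZMod 2) :=
  Finsupp.lmapDomain (ZMod 2) (ZMod 2) (fun σ : Sing A n => f.comp σ)

theorem push_bdry {A X : Type} [TopologicalSpace A] [TopologicalSpace X] (f : C(A, X)) (n : ℕ)
    (c : Sing A (n + 1) →₀ ZMod 2) : push f n (bdry A n c) = bdry X n (push f (n + 1) c) := by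
  have h : push f n ∘ₗ bdry A n = bdry X n ∘ₗ push f (n + 1) := by
    refine Finsupp.lhom_ext' fun σ => LinearMap.ext_ring ?_
    simp only [LinearMap.comp_apply, Finsupp.lsingle_apply]
    rw [push, push, bdry, bdry, Finsupp.linearCombination_single, one_smul, map_sum,
      Finsupp.lmapDomain_apply, Finsupp.mapDomain_single, Finsupp.linearCombination_single,
      one_smul]
    refine Finset.sum_congr rfl fun i _ => ?_
    rw [Finsupp.lmapDomain_apply, Finsupp.mapDomain_single]
    rfl
  exact LinearMap.congr_fun h c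

/-- the chain map of a continuous map -/
abbrev kmap {A X : Type} [TopologicalSpace A] [TopologicalSpace X] (f : C(A, X)) : KK A ⟶ KK X :=
  SSet.chainComplexMap (TopCat.toSSet.map (TopCat.ofHom f)) FF

theorem kmap_toC {A X : Type} [TopologicalSpace A] [TopologicalSpace X] (f : C(A, X)) (n : ℕ)
    (c : Sing A n →₀ ZMod 2) : ((kmap f).f n).hom (toC A n c) = toC X n (push f n c) := by
  have h : ((kmap f).f n).hom ∘ₗ toC A n = toC X n ∘ₗ push f n := by
    refine Finsupp.lhom_ext' fun σ => LinearMap.ext_ring ?_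
    simp only [LinearMap.comp_apply, Finsupp.lsingle_apply]
    rw [push, Finsupp.lmapDomain_apply, Finsupp.mapDomain_single, toC, toC,
      Finsupp.linearCombination_single, Finsupp.linearCombination_single, one_smul, one_smul, bas,
      bas, ← ModuleCat.comp_apply, SSet.ι_chainComplexMap_f]
    rfl
  exact LinearMap.congr_fun h c

/-- the morphism given by an element -/
def elt {M : ModuleCat.{0} (ZMod 2)} (x : M) : FF ⟶ M :=
  ModuleCat.ofHom (LinearMap.toSpanSingleton (ZMod 2) M x)

theorem elt_one {M : ModuleCat.{0} (ZMod 2)} (x : M) : (elt x).hom (1 : ZMod 2) = x :=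
  one_smul _ x

theorem elt_comp {M M' : ModuleCat.{0} (ZMod 2)} (x : M) (g : M ⟶ M') :
    elt x ≫ g = elt (g.hom x) := by
  apply ModuleCat.hom_ext
  refine LinearMap.ext_ring ?_
  show g.hom ((elt x).hom (1 : ZMod 2)) = (elt (g.hom x)).hom (1 : ZMod 2)
  rw [elt_one, elt_one]

/-- injectivity in homology, in terms of explicit chains -/
theorem mono_bridge {A X : Type} [TopologicalSpace A] [TopologicalSpace X] (f : C(A, X)) (n : ℕ)
    (h : Mono (((singularHomologyFunctor (ModuleCat.{0} (ZMod 2)) n).obj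
      (ModuleCat.of (ZMod 2) (ZMod 2))).map (TopCat.ofHom f)))
    (u : Sing A n →₀ ZMod 2) (hu : IsCycle n u) (hb : ∃ b, bdry X n b = push f n u) :
    ∃ b, bdry A n b = u := by
  have h1 : Mono (HomologicalComplex.homologyMap (kmap f) n) := h
  rw [HomologicalComplex.mono_homologyMap_iff_up_to_refinements (kmap f) (n + 1) n
    ((ComplexShape.down ℕ).next n) (by simp) rfl] at h1
  obtain ⟨b, hb⟩ := hb
  have e1 : elt (toC A n u) ≫ (KK A).d n ((ComplexShape.down ℕ).next n) = 0 := by
    rw [elt_comp]
    have h5 : ((KK A).d n ((ComplexShape.down ℕ).next n)).hom (toC A n u) = 0 := by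
      cases n with
      | zero =>
        rw [HomologicalComplex.shape _ _ _ (by simp)]
        rfl
      | succ m =>
        have h3 : (ComplexShape.down ℕ).next (m + 1) = m := by simp
        rw [h3, d_toC]
        have h4 : bdry A m u = 0 := hu
        rw [h4, map_zero]
    rw [h5]
    apply ModuleCat.hom_ext
    refine LinearMap.ext_ring ?_
    rw [elt_one]
    rfl
  have e2 : elt (toC A n u) ≫ (kmap f).f n = elt (toC X (n + 1) b) ≫ (KK X).d (n + 1) n := by
    rw [elt_comp, elt_comp, kmap_toC, d_toC, hb]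
  obtain ⟨A', π, hπ, x₁, hx⟩ := h1 (elt (toC A n u)) e1 (elt (toC X (n + 1) b)) e2
  have hs : Function.Surjective π := (ModuleCat.epi_iff_surjective π).1 hπ
  obtain ⟨a, ha⟩ := hs (1 : ZMod 2)
  refine ⟨(ofC A (n + 1)).hom (x₁.hom a), ?_⟩
  apply toC_injective
  rw [← d_toC, toC_ofC]
  have h2 : (π ≫ elt (toC A n u)).hom a = (x₁ ≫ (KK A).d (n + 1) n).hom a := by rw [hx]
  have h6 : (π ≫ elt (toC A n u)).hom a = toC A n u := by
    show (elt (toC A n u)).hom (π.hom a) = toC A n u
    have ha' : π.hom a = (1 : ZMod 2) := ha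
    rw [ha', elt_one]
  rw [← h6, h2]
  rfl

end

end Pool.Agent.W595.Bridge
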